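import Pool.Agent.Q19.HO.Stm

/-!
# Project HO (helper19), job ZP
-/

set_option autoImplicit false

namespace Pool.Agent.Q256.HO.ZP

open Pool.Agent.Q19.HO Matrix

variable {K : Type} [Field K] {n : ℕ}

/-- the signs of `1 - 2 E_ii` -/
def sg (i : Fin n) : Fin n → K := fun k => if k = i then -1 else 1

lemma sg_self (i : Fin n) : (sg i i : K) = -1 := if_pos rfl

lemma sg_ne {i k : Fin n} (h : k ≠ i) : (sg i k : K) = 1 := if_neg h

lemma sg_sq (i : Fin n) :
    Matrix.diagonal (sg i : Fin n → K) * Matrix.diagonal (sg i) = 1 := by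
  rw [Matrix.diagonal_mul_diagonal, ← Matrix.diagonal_one]
  congr 1
  funext k
  by_cases h : k = i
  · subst h
    rw [sg_self]
    ring
  · rw [sg_ne h]
    ring

/-- the reflection `1 - 2 E_ii` -/
def sgU (i : Fin n) : (Matrix (Fin n) (Fin n) K)ˣ :=
  ⟨Matrix.diagonal (sg i), Matrix.diagonal (sg i), sg_sq i, sg_sq i⟩

lemma sgU_mem (i : Fin n) : (sgU i : (Matrix (Fin n) (Fin n) K)ˣ) ∈ GO n K := ⟨1, by
  show (Matrix.diagonal (sg i : Fin n → K))ᵀ * Matrix.diagonal (sg i) = (1 : K) • 1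
  rw [Matrix.diagonal_transpose, sg_sq, one_smul]⟩

lemma dich (h2 : (2 : K) ≠ 0) (g : Matrix (Fin n) (Fin n) K) (i : Fin n) (μ : K)
    (h : g * Matrix.diagonal (sg i) = μ • (Matrix.diagonal (sg i) * g)) :
    (∀ k, k ≠ i → g i k = 0 ∧ g k i = 0) ∨
      (g i i = 0 ∧ ∀ j k, j ≠ i → k ≠ i → g j k = 0) := by
  have h1 : ∀ j k, g j k * sg i k = μ * (sg i j * g j k) := by
    intro j k
    have := congrFun (congrFun h j) k
    rwa [Matrix.mul_diagonal, Matrix.smul_apply, Matrix.diagonal_mul, smul_eq_mul] at this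
  by_cases hμ : μ = 1
  · left
    intro k hk
    subst hμ
    constructor
    · have h3 := h1 i k
      rw [sg_self, sg_ne hk] at h3
      have h4 : 2 * g i k = 0 := by linear_combination h3
      exact (mul_eq_zero.1 h4).resolve_left h2
    · have h3 := h1 k i
      rw [sg_self, sg_ne hk] at h3
      have h4 : 2 * g k i = 0 := by linear_combination -h3
      exact (mul_eq_zero.1 h4).resolve_left h2
  · right
    have h5 : 1 - μ ≠ 0 := sub_ne_zero.2 (Ne.symm hμ)
    refine ⟨?_, fun j k hj hk => ?_⟩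
    · have h3 := h1 i i
      rw [sg_self] at h3
      have h4 : (1 - μ) * g i i = 0 := by linear_combination -h3
      exact (mul_eq_zero.1 h4).resolve_left h5
    · have h3 := h1 j k
      rw [sg_ne hj, sg_ne hk] at h3
      have h4 : (1 - μ) * g j k = 0 := by linear_combination h3
      exact (mul_eq_zero.1 h4).resolve_left h5

/-- in dimension at least three the second case is impossible for invertible matrices -/
lemma not_block (hn : 3 ≤ n) (g g' : Matrix (Fin n) (Fin n) K) (hg : g * g' = 1) (i : Fin n)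
    (h : ∀ j k, j ≠ i → k ≠ i → g j k = 0) : False := by
  obtain ⟨a, b, hai, hbi, hab⟩ : ∃ a b : Fin n, a ≠ i ∧ b ≠ i ∧ a ≠ b := by
    have hc : 2 < Fintype.card (Fin n) := by rw [Fintype.card_fin]; omega
    obtain ⟨x, y, z, hxy, hxz, hyz⟩ := Fintype.two_lt_card_iff.1 hc
    by_cases hx : x = i
    · exact ⟨y, z, fun e => hxy (hx.trans e.symm), fun e => hxz (hx.trans e.symm), hyz⟩
    · by_cases hy : y = i
      · exact ⟨x, z, hx, fun e => hyz (hy.trans e.symm), hxz⟩
      · exact ⟨x, y, hx, hy, hxy⟩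
  have hrow : ∀ j k, j ≠ i → (g * g') j k = g j i * g' i k := by
    intro j k hj
    rw [Matrix.mul_apply]
    refine Finset.sum_eq_single i (fun l _ hl => ?_) (fun h => absurd (Finset.mem_univ i) h)
    rw [h j l hj hl, zero_mul]
  have h1 := hrow a a hai
  have h2 := hrow a b hai
  have h3 := hrow b b hbi
  rw [hg, Matrix.one_apply_eq] at h1 h3
  rw [hg, Matrix.one_apply_ne hab] at h2
  rcases mul_eq_zero.1 h2.symm with h4 | h4
  · rw [h4, zero_mul] at h1
    exact one_ne_zero h1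
  · rw [h4, mul_zero] at h3
    exact one_ne_zero h3

/-- the matrix of a transposition -/
def sw (i j : Fin n) : Matrix (Fin n) (Fin n) K := fun a b => if Equiv.swap i j a = b then 1 else 0

lemma sw_sq (i j : Fin n) : (sw i j : Matrix (Fin n) (Fin n) K) * sw i j = 1 := by
  ext a b
  rw [Matrix.mul_apply, Finset.sum_eq_single (Equiv.swap i j a)]
  · unfold sw
    rw [if_pos rfl, Equiv.swap_apply_self, one_mul, Matrix.one_apply]
  · intro c _ hc
    unfold sw
    rw [if_neg (Ne.symm hc), zero_mul]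
  · intro h
    exact absurd (Finset.mem_univ _) h

lemma sw_tr (i j : Fin n) : (sw i j : Matrix (Fin n) (Fin n) K)ᵀ = sw i j := by
  ext a b
  rw [Matrix.transpose_apply]
  unfold sw
  by_cases h : Equiv.swap i j b = a
  · rw [if_pos h, if_pos (by rw [← h, Equiv.swap_apply_self])]
  · rw [if_neg h, if_neg (fun h' => h (by rw [← h', Equiv.swap_apply_self]))]

/-- the matrix of a transposition as a unit -/
def swU (i j : Fin n) : (Matrix (Fin n) (Fin n) K)ˣ := ⟨sw i j, sw i j, sw_sq i j, sw_sq i j⟩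

lemma swU_mem (i j : Fin n) : (swU i j : (Matrix (Fin n) (Fin n) K)ˣ) ∈ GO n K := ⟨1, by
  show (sw i j : Matrix (Fin n) (Fin n) K)ᵀ * sw i j = (1 : K) • 1
  rw [sw_tr, sw_sq, one_smul]⟩

lemma scalar_of_three (h2 : (2 : K) ≠ 0) (hn : 3 ≤ n) (g : (Matrix (Fin n) (Fin n) K)ˣ)
    (h : ∀ h ∈ GO n K, ∃ μ : K,
      (g : Matrix (Fin n) (Fin n) K) * h = μ • ((h : Matrix (Fin n) (Fin n) K) * g)) :
    ∃ r : K, (g : Matrix (Fin n) (Fin n) K) = r • 1 := by
  have hoff : ∀ i k, k ≠ i → (g : Matrix (Fin n) (Fin n) K) i k = 0 := by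
    intro i k hk
    obtain ⟨μ, hμ⟩ := h _ (sgU_mem i)
    rcases dich h2 (g : Matrix (Fin n) (Fin n) K) i μ hμ with h3 | ⟨_, h3⟩
    · exact (h3 k hk).1
    · exact (not_block hn _ _ g.mul_inv i h3).elim
  have hd : (g : Matrix (Fin n) (Fin n) K) =
      Matrix.diagonal fun i => (g : Matrix (Fin n) (Fin n) K) i i := by
    ext i k
    by_cases hk : k = i
    · subst hk
      rw [Matrix.diagonal_apply_eq]
    · rw [Matrix.diagonal_apply_ne _ (Ne.symm hk), hoff i k hk]
  have hne : ∀ i, (g : Matrix (Fin n) (Fin n) K) i i ≠ 0 := by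
    intro i h0
    have h1 : ((g : Matrix (Fin n) (Fin n) K) * (↑g⁻¹ : Matrix (Fin n) (Fin n) K)) i i = 1 := by
      rw [g.mul_inv, Matrix.one_apply_eq]
    rw [hd, Matrix.diagonal_mul, h0, zero_mul] at h1
    exact zero_ne_one h1
  have key : ∀ i j, (g : Matrix (Fin n) (Fin n) K) i i = (g : Matrix (Fin n) (Fin n) K) j j := by
    intro i j
    by_cases hij : i = j
    · rw [hij]
    obtain ⟨k, hki, hkj⟩ : ∃ k : Fin n, k ≠ i ∧ k ≠ j := by
      have hc : ({i, j} : Finset (Fin n)).card < Fintype.card (Fin n) := by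
        rw [Fintype.card_fin, Finset.card_pair hij]
        omega
      obtain ⟨k, hk⟩ := Finset.exists_mem_notMem_of_card_lt_card
        (s := ({i, j} : Finset (Fin n))) (t := Finset.univ) (by rwa [Finset.card_univ])
      refine ⟨k, fun e => hk.2 ?_, fun e => hk.2 ?_⟩
      · rw [e]; exact Finset.mem_insert_self _ _
      · rw [e]; exact Finset.mem_insert_of_mem (Finset.mem_singleton_self _)
    obtain ⟨μ, hμ⟩ := h _ (swU_mem i j)
    have hμ' : ∀ a b, (g : Matrix (Fin n) (Fin n) K) a a * (sw i j a b : K) =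
        μ * ((sw i j a b : K) * (g : Matrix (Fin n) (Fin n) K) b b) := by
      intro a b
      have h1 := congrFun (congrFun hμ a) b
      change ((g : Matrix (Fin n) (Fin n) K) * (sw i j : Matrix (Fin n) (Fin n) K) :
          Matrix (Fin n) (Fin n) K) a b =
        (μ • ((sw i j : Matrix (Fin n) (Fin n) K) * (g : Matrix (Fin n) (Fin n) K)) :
          Matrix (Fin n) (Fin n) K) a b at h1
      rw [hd, Matrix.diagonal_mul, Matrix.smul_apply, Matrix.mul_diagonal, smul_eq_mul] at h1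
      exact h1
    have hs1 : (sw i j k k : K) = 1 := if_pos (Equiv.swap_apply_of_ne_of_ne hki hkj)
    have hs2 : (sw i j i j : K) = 1 := if_pos (Equiv.swap_apply_left i j)
    have h3 := hμ' k k
    have h4 := hμ' i j
    rw [hs1] at h3
    rw [hs2] at h4
    have h5 : μ = 1 := by
      have h6 : (μ - 1) * (g : Matrix (Fin n) (Fin n) K) k k = 0 := by linear_combination -h3
      exact sub_eq_zero.1 ((mul_eq_zero.1 h6).resolve_right (hne k))
    rw [h5] at h4
    linear_combination h4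
  have i0 : Fin n := ⟨0, by omega⟩
  refine ⟨(g : Matrix (Fin n) (Fin n) K) i0 i0, ?_⟩
  ext i k
  rw [Matrix.smul_apply, smul_eq_mul]
  by_cases hk : k = i
  · subst hk
    rw [Matrix.one_apply_eq, mul_one]
    exact key _ _
  · rw [Matrix.one_apply_ne (Ne.symm hk), mul_zero, hoff i k hk]

theorem t : S_ZP := by
  intro K _ n h2 hn g hg h
  refine ⟨fun h3 => scalar_of_three h2 h3 g h, ?_⟩
  by_cases h3 : 3 ≤ n
  · obtain ⟨r, hr⟩ := scalar_of_three h2 h3 g h
    refine ⟨r * r, ?_⟩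
    rw [hr, Matrix.smul_mul, Matrix.one_mul, smul_smul]
  · obtain rfl : n = 2 := by omega
    obtain ⟨r, hr⟩ := hg
    obtain ⟨μ, hμ⟩ := h _ (sgU_mem 0)
    rcases dich h2 (g : Matrix (Fin 2) (Fin 2) K) 0 μ hμ with h4 | ⟨h4, h5⟩
    · have h5 := h4 1 (by decide)
      refine ⟨r, ?_⟩
      have ht : (g : Matrix (Fin 2) (Fin 2) K)ᵀ = g := by
        ext a b
        rw [Matrix.transpose_apply]
        fin_cases a <;> fin_cases b
        · rfl
        · exact h5.2.trans h5.1.symm
        · exact h5.1.trans h5.2.symm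
        · rfl
      rw [ht] at hr
      exact hr
    · have h6 := h5 1 1 (by decide) (by decide)
      refine ⟨(g : Matrix (Fin 2) (Fin 2) K) 0 1 * (g : Matrix (Fin 2) (Fin 2) K) 1 0, ?_⟩
      ext a b
      rw [Matrix.mul_apply, Fin.sum_univ_two, Matrix.smul_apply, smul_eq_mul]
      fin_cases a <;> fin_cases b
      · show (g : Matrix (Fin 2) (Fin 2) K) 0 0 * (g : Matrix (Fin 2) (Fin 2) K) 0 0 +
          (g : Matrix (Fin 2) (Fin 2) K) 0 1 * (g : Matrix (Fin 2) (Fin 2) K) 1 0 =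
          (g : Matrix (Fin 2) (Fin 2) K) 0 1 * (g : Matrix (Fin 2) (Fin 2) K) 1 0 * 
            (1 : Matrix (Fin 2) (Fin 2) K) 0 0
        rw [h4, Matrix.one_apply_eq]
        ring
      · show (g : Matrix (Fin 2) (Fin 2) K) 0 0 * (g : Matrix (Fin 2) (Fin 2) K) 0 1 +
          (g : Matrix (Fin 2) (Fin 2) K) 0 1 * (g : Matrix (Fin 2) (Fin 2) K) 1 1 =
          (g : Matrix (Fin 2) (Fin 2) K) 0 1 * (g : Matrix (Fin 2) (Fin 2) K) 1 0 * 
            (1 : Matrix (Fin 2) (Fin 2) K) 0 1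
        rw [h4, h6, Matrix.one_apply_ne (by decide)]
        ring
      · show (g : Matrix (Fin 2) (Fin 2) K) 1 0 * (g : Matrix (Fin 2) (Fin 2) K) 0 0 +
          (g : Matrix (Fin 2) (Fin 2) K) 1 1 * (g : Matrix (Fin 2) (Fin 2) K) 1 0 =
          (g : Matrix (Fin 2) (Fin 2) K) 0 1 * (g : Matrix (Fin 2) (Fin 2) K) 1 0 * 
            (1 : Matrix (Fin 2) (Fin 2) K) 1 0
        rw [h4, h6, Matrix.one_apply_ne (by decide)]
        ring
      · show (g : Matrix (Fin 2) (Fin 2) K) 1 0 * (g : Matrix (Fin 2) (Fin 2) K) 0 1 +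
          (g : Matrix (Fin 2) (Fin 2) K) 1 1 * (g : Matrix (Fin 2) (Fin 2) K) 1 1 =
          (g : Matrix (Fin 2) (Fin 2) K) 0 1 * (g : Matrix (Fin 2) (Fin 2) K) 1 0 * 
            (1 : Matrix (Fin 2) (Fin 2) K) 1 1
        rw [h6, Matrix.one_apply_eq]
        ring

end Pool.Agent.Q256.HO.ZP
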